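import Pool.Agent.H9.CA.Tool
import Pool.Agent.H68.SF.LAll
import Pool.Agent.H78.SF.LPR

/-! # MP_ceca85_lc, module DL: elementary submodels of levels collapse to levels -/

open Ordinal Order Set
open scoped ZFSet

namespace CAA

open SF SF.H68 SF.H78

theorem pf_DL : T_DL := by
  intro N' N f A τ hel htr hne k hA hN
  have k' : ZFm (· ∈ N') := (aLEZ N' N f hne htr hel).1 k
  have hd := dfb_lvl aLHT
  have hfA : app f A ∈ N := app_mem hel.func hA
  have hN' : N = Lh ∅ (app f A) τ := hN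
  obtain ⟨hl, hτ⟩ : IsSuccLimit τ ∧ ∀ α : Ordinal.{0}, α.toZFSet ∈ N ↔ α < τ := by
    have h1 := aLHE ∅ (app f A) τ ZFSet.isTransitive_empty (by rw [← hN']; exact k)
      (by rw [← hN']; exact k.mempty) (by rw [← hN']; exact hfA)
    rw [← hN'] at h1
    exact h1
  obtain ⟨τ', hl', hτ'⟩ := height k'
  have h1 := aLED ZFm _ hd N' N f hel k' k (fun _ => A) (fun _ => hA)
  have h2 : Lvl (· ∈ N') fun _ => A := h1.2 (lvl_LA hN hτ hl rfl)
  exact ⟨τ', eq_LA aLHT k' hτ' hl' (v := fun _ => A) hA h2, k', hτ'⟩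

end CAA
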