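import Pool.Agent.H37.CA.Targets

/-!
# Ray class characters of isomorphic fields
-/

set_option autoImplicit false

open NumberField NumberField.InfinitePlace Complex Filter Topology

namespace Pool.Agent.H51.CA

open Pool.Agent.H37.CA Pool.Agent.H37.CV Pool.Agent.H28.RC Pool.Agent.H25 Pool.Agent.H25.HK

section

variable {F : Type} [Field F]

theorem rp_empty [IsTotallyComplex F] : IsEmpty (RP F) :=
  ⟨fun v => (not_isReal_iff_isComplex.2 (IsTotallyComplex.isComplex v.1)) v.2⟩

theorem sg_eq [NumberField F] [IsTotallyComplex F] (S : Finset (RP F)) (a : F) :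
    sg F S a = 1 := by
  have : S = ∅ := by
    have := rp_empty (F := F)
    exact Finset.eq_empty_of_isEmpty S
  rw [sg, this, Finset.prod_empty]

theorem itc {E : Type} [Field E] [IsTotallyComplex F] (e : F ≃+* E) : IsTotallyComplex E :=
  ⟨fun _ => IsComplex.of_comap (e : F →+* E) (IsTotallyComplex.isComplex _)⟩

end

section

variable {A B : Type} [CommRing A] [CommRing B] (ε : A ≃+* B)

theorem cm_mul (I J : Ideal B) : (I * J).comap ε = I.comap ε * J.comap ε := by
  have h : ∀ K : Ideal B, K.comap ε = K.map ε.symm := fun K => (Ideal.map_symm ε).symm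
  rw [h, h, h, Ideal.map_mul]

theorem cm_sup (I J : Ideal B) : (I ⊔ J).comap ε = I.comap ε ⊔ J.comap ε := by
  have h : ∀ K : Ideal B, K.comap ε = K.map ε.symm := fun K => (Ideal.map_symm ε).symm
  rw [h, h, h, Ideal.map_sup]

theorem cm_span (b : B) : (Ideal.span {b}).comap ε = Ideal.span {ε.symm b} := by
  rw [← Ideal.map_symm ε, Ideal.map_span, Set.image_singleton]

theorem cm_mc (I : Ideal A) : (I.map ε).comap ε = I :=
  Ideal.comap_map_of_bijective ε ε.bijective

theorem mc_cm (I : Ideal B) : (I.comap ε).map ε = I :=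
  Ideal.map_comap_of_surjective ε ε.surjective I

theorem cm_inj {I J : Ideal B} (h : I.comap ε = J.comap ε) : I = J := by
  rw [← mc_cm ε I, h, mc_cm]

theorem cm_bot : (⊥ : Ideal B).comap ε = ⊥ :=
  Ideal.comap_bot_of_injective ε ε.injective

theorem cm_eq_bot {I : Ideal B} : I.comap ε = ⊥ ↔ I = ⊥ :=
  ⟨fun h => cm_inj ε (h.trans (cm_bot ε).symm), fun h => h ▸ cm_bot ε⟩

theorem cm_eq_top {I : Ideal B} : I.comap ε = ⊤ ↔ I = ⊤ :=
  ⟨fun h => cm_inj ε (h.trans Ideal.comap_top.symm), fun h => h ▸ Ideal.comap_top⟩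

end

theorem pf_TRN : T_TRN := by
  intro F E _ _ _ _ _ e χ
  have hE : IsTotallyComplex E := itc e
  refine ⟨hE, ?_⟩
  set ε : 𝓞 F ≃+* 𝓞 E := RingOfIntegers.mapRingEquiv e with hε
  have hε' : ∀ I : Ideal (𝓞 E), I.comap (RingOfIntegers.mapRingHom (e : F →+* E)) = I.comap ε :=
    fun I => rfl
  have hf : (χ.f.map ε).comap ε = χ.f := cm_mc ε _
  have key : ∀ I : Ideal (𝓞 E), I ⊔ χ.f.map ε = ⊤ ↔ I.comap ε ⊔ χ.f = ⊤ := by
    intro I
    rw [← cm_eq_top ε, cm_sup, hf]
  have hmem : ∀ x : 𝓞 E, x ∈ χ.f.map ε ↔ ε.symm x ∈ χ.f := by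
    intro x
    conv_rhs => rw [← hf]
    rw [Ideal.mem_comap, RingEquiv.apply_symm_apply]
  refine ⟨{ f := χ.f.map ε
            S := ∅
            ψ := fun I => χ.ψ (I.comap ε)
            f_ne := ?_
            map_one := ?_
            map_mul := ?_
            map_bot := ?_
            norm_one := ?_
            eq_zero := ?_
            princ := ?_
            prim := ?_ }, fun I => rfl, fun s => ?_⟩
  · intro h
    apply χ.f_ne
    rw [← hf, h, cm_bot]
  · simp only [Ideal.comap_top, χ.map_one]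
  · intro I J
    simp only [cm_mul, χ.map_mul]
  · simp only [cm_bot, χ.map_bot]
  · intro I h1 h2
    exact χ.norm_one _ (fun h => h1 ((cm_eq_bot ε).1 h)) ((key I).1 h2)
  · intro I h
    exact χ.eq_zero _ fun h1 => h ((key I).2 h1)
  · intro a h1 h2
    simp only [cm_span]
    rw [χ.princ _ ?_ ?_, sg_eq, sg_eq]
    · exact fun h => h1 ((map_eq_zero_iff ε.symm ε.symm.injective).1 h)
    · have h3 := (hmem _).1 h2
      rwa [map_sub, map_one] at h3
  · intro P hP hfP
    obtain ⟨a, h1, h2, h3, h4⟩ := χ.prim (P.comap ε) (Ideal.comap_isPrime ε P) (by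
      rw [← hf]
      exact Ideal.comap_mono hfP)
    refine ⟨ε a, fun h => h1 ((map_eq_zero_iff ε ε.injective).1 h), ?_, fun x hx => ?_, ?_⟩
    · rw [key, cm_span, RingEquiv.symm_apply_apply]
      exact h2
    · rw [hmem, map_mul, map_sub, map_one, RingEquiv.symm_apply_apply]
      refine h3 _ ?_
      rwa [Ideal.mem_comap, RingEquiv.apply_symm_apply]
    · simp only [cm_span, RingEquiv.symm_apply_apply]
      rwa [sg_eq, ← sg_eq χ.S (a : F)]
  · unfold Lc
    let Φ : {I : Ideal (𝓞 E) // I ≠ ⊥} ≃ {I : Ideal (𝓞 F) // I ≠ ⊥} :=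
      { toFun := fun I => ⟨I.1.comap ε, fun h => I.2 ((cm_eq_bot ε).1 h)⟩
        invFun := fun I => ⟨I.1.map ε, fun h => I.2 (by rw [← cm_mc ε I.1, h, cm_bot])⟩
        left_inv := fun I => Subtype.ext (mc_cm ε I.1)
        right_inv := fun I => Subtype.ext (cm_mc ε I.1) }
    rw [← Φ.tsum_eq]
    refine tsum_congr fun I => ?_
    have h1 : Ideal.absNorm (I.1.comap ε) = Ideal.absNorm I.1 := by
      rw [Ideal.absNorm_apply, Ideal.absNorm_apply, Submodule.cardQuot_apply,
        Submodule.cardQuot_apply]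
      exact Nat.card_congr (Ideal.quotientEquiv _ _ ε (mc_cm ε I.1).symm).toEquiv
    change χ.ψ (I.1.comap ε) * (Ideal.absNorm I.1 : ℂ) ^ (-s) =
      χ.ψ (I.1.comap ε) * (Ideal.absNorm (I.1.comap ε) : ℂ) ^ (-s)
    rw [h1]

end Pool.Agent.H51.CA
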